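import Pool.Agent.H820.BadTri.Main

/-!
# Large subsets without bad triangles in Hilbert space: the threshold is 1 and is not attained

Failure of `P δ` for `δ < 1`: the points are the vectors `r (ζ^(a_1), …, ζ^(a_k))`, where `ζ` is a
primitive root of unity of large order `M` and `k` is large.  By concentration of measure in
`(ℤ/M)^k` (here: the variance bound of Efron and Stein) a set `A` of density `λ` contains points
`x`, `y`, `z` such that `y` and `z` are very close to the points `ζ x` and `ζ² x`; these form an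
almost degenerate triangle.

`P 1` holds: colour a point by the integer part of the square of its norm, modulo 4.  If `b` is the
midpoint of `a` and `c` and all these are at distance one from `b`, then
`‖a‖² + ‖c‖² - 2 ‖b‖² = 2`.
-/

set_option autoImplicit false

open Finset

namespace Pool.Agent.Results.MP_8cfbc5_co.ThresholdIsOne

/-- The real Hilbert space `ℓ²`. -/
abbrev H : Type := lp (fun _ : ℕ => ℝ) 2

/-- Three points form a bad triangle if two of their distances are at most `1` and the remaining one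
is at least `1 + δ`. -/
def Bad (δ : ℝ) (a b c : H) : Prop :=
  (dist a b ≤ 1 ∧ dist b c ≤ 1 ∧ 1 + δ ≤ dist a c) ∨
  (dist b c ≤ 1 ∧ dist a c ≤ 1 ∧ 1 + δ ≤ dist a b) ∨
  (dist a b ≤ 1 ∧ dist a c ≤ 1 ∧ 1 + δ ≤ dist b c)

/-- Property `P(δ)`: for some `lam > 0`, among any `n` points there are at least `lam * n` no three
of which (with distinct indices) form a bad triangle. -/
def P (δ : ℝ) : Prop :=
  ∃ lam : ℝ, 0 < lam ∧ ∀ n : ℕ, 1 ≤ n → ∀ x : Fin n → H, ∃ I : Finset (Fin n),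
    lam * n ≤ (I.card : ℝ) ∧ ∀ i ∈ I, ∀ j ∈ I, ∀ k ∈ I, i ≠ j → j ≠ k → i ≠ k →
      ¬ Bad δ (x i) (x j) (x k)

theorem not_P {δ : ℝ} (h0 : 0 < δ) (h1 : δ < 1) : ¬ P δ := by
  rintro ⟨lam, hlam, h⟩
  obtain ⟨n, hn, x, hx⟩ := Pool.Agent.H820.BadTri.exists_points h0 h1 hlam
  obtain ⟨I, hI, hI2⟩ := h n hn x
  obtain ⟨i, hi, j, hj, k, hk, h2, h3, h4⟩ := hx I hI
  refine hI2 i hi j hj k hk ?_ ?_ ?_ (Or.inl ⟨h2, h3, h4⟩)
  · rintro rfl; linarith
  · rintro rfl; linarith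
  · rintro rfl; rw [dist_self] at h4; linarith

/-- the middle point of a degenerate bad triangle -/
theorem mid {a b c : H} (h1 : dist a b ≤ 1) (h2 : dist c b ≤ 1) (h3 : 2 ≤ dist a c) :
    ‖a‖ ^ 2 + ‖c‖ ^ 2 - 2 * ‖b‖ ^ 2 = 2 := by
  rw [dist_eq_norm] at h1 h2 h3
  have e1 := parallelogram_law_with_norm ℝ (a - b) (c - b)
  have e2 : (a - b) - (c - b) = a - c := by abel
  rw [e2] at e1
  have n1 : 0 ≤ ‖a - b‖ := norm_nonneg _
  have n2 : 0 ≤ ‖c - b‖ := norm_nonneg _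
  have n3 : 0 ≤ ‖a - b + (c - b)‖ := norm_nonneg _
  have h4 : ‖a - b + (c - b)‖ * ‖a - b + (c - b)‖ ≤ 0 := by nlinarith
  have h5 : ‖a - b + (c - b)‖ = 0 := by nlinarith
  have h6 : a - b + (c - b) = 0 := norm_eq_zero.1 h5
  have h7 : c - b = -(a - b) := by
    rw [eq_neg_iff_add_eq_zero, add_comm]; exact h6
  have h8 : ‖c - b‖ = ‖a - b‖ := by rw [h7, norm_neg]
  rw [h5, h8] at e1
  have h9 : ‖a - b‖ = 1 := by nlinarith
  have e3 := parallelogram_law_with_norm ℝ b (a - b)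
  have e4 : b + (a - b) = a := by abel
  have e5 : b - (a - b) = c := by rw [sub_eq_add_neg, ← h7]; abel
  rw [e4, e5, h9] at e3
  nlinarith

/-- the colour of a point -/
noncomputable def col (a : H) : ZMod 4 := ((⌊‖a‖ ^ 2⌋ : ℤ) : ZMod 4)

theorem col_ne {a b c : H} (h1 : dist a b ≤ 1) (h2 : dist c b ≤ 1) (h3 : 2 ≤ dist a c)
    (h4 : col a = col b) (h5 : col c = col b) : False := by
  have h := mid h1 h2 h3
  unfold col at h4 h5
  rw [ZMod.intCast_eq_intCast_iff_dvd_sub] at h4 h5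
  obtain ⟨p, hp⟩ := h4
  obtain ⟨q, hq⟩ := h5
  have a1 := Int.floor_le (‖a‖ ^ 2)
  have a2 := Int.lt_floor_add_one (‖a‖ ^ 2)
  have b1 := Int.floor_le (‖b‖ ^ 2)
  have b2 := Int.lt_floor_add_one (‖b‖ ^ 2)
  have c1 := Int.floor_le (‖c‖ ^ 2)
  have c2 := Int.lt_floor_add_one (‖c‖ ^ 2)
  set A := ⌊‖a‖ ^ 2⌋
  set B := ⌊‖b‖ ^ 2⌋
  set C := ⌊‖c‖ ^ 2⌋
  have d1 : (0 : ℝ) < ((A + C - 2 * B : ℤ) : ℝ) := by push_cast; linarith
  have d2 : ((A + C - 2 * B : ℤ) : ℝ) < 4 := by push_cast; linarith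
  have d3 : 0 < A + C - 2 * B := by exact_mod_cast d1
  have d4 : A + C - 2 * B < 4 := by exact_mod_cast d2
  push_cast at hp hq
  omega

theorem yes_P {δ : ℝ} (h1 : 1 ≤ δ) : P δ := by
  classical
  refine ⟨1 / 4, by norm_num, fun n _ x => ?_⟩
  obtain ⟨v, -, hv⟩ := exists_le_card_fiber_of_nsmul_le_card_of_maps_to
    (s := (univ : Finset (Fin n))) (t := (univ : Finset (ZMod 4))) (f := fun i => col (x i))
    (b := (1 / 4 * n : ℝ)) (fun _ _ => mem_univ _) univ_nonempty (by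
      rw [card_univ, card_univ, ZMod.card, Fintype.card_fin, nsmul_eq_mul]
      push_cast
      linarith)
  refine ⟨_, hv, ?_⟩
  intro i hi j hj k hk _ _ _ hbad
  rw [mem_filter] at hi hj hk
  rcases hbad with ⟨h2, h3, h4⟩ | ⟨h2, h3, h4⟩ | ⟨h2, h3, h4⟩
  · exact col_ne h2 (by rwa [dist_comm]) (by linarith) (hi.2.trans hj.2.symm)
      (hk.2.trans hj.2.symm)
  · exact col_ne h3 h2 (by linarith) (hi.2.trans hk.2.symm) (hj.2.trans hk.2.symm)
  · exact col_ne (by rwa [dist_comm]) (by rwa [dist_comm]) (by linarith) (hj.2.trans hi.2.symm)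
      (hk.2.trans hi.2.symm)

/-- `P(δ)` fails exactly for `δ < 1`; so the threshold is `1`, and the property holds there: the
supremum of the `δ` for which it fails is not attained. -/
theorem result :
    (∀ δ : ℝ, 0 < δ → (P δ ↔ 1 ≤ δ)) ∧ sSup {δ : ℝ | 0 < δ ∧ ¬ P δ} = 1 ∧ P 1 := by
  have h : ∀ δ : ℝ, 0 < δ → (P δ ↔ 1 ≤ δ) := fun δ h0 =>
    ⟨fun hP => not_lt.1 fun h1 => not_P h0 h1 hP, yes_P⟩
  refine ⟨h, ?_, yes_P le_rfl⟩
  have hset : {δ : ℝ | 0 < δ ∧ ¬ P δ} = Set.Ioo 0 1 := by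
    ext δ
    simp only [Set.mem_setOf_eq, Set.mem_Ioo]
    constructor
    · rintro ⟨h0, h1⟩
      exact ⟨h0, not_le.1 fun h2 => h1 ((h δ h0).2 h2)⟩
    · rintro ⟨h0, h1⟩
      exact ⟨h0, not_P h0 h1⟩
  rw [hset, csSup_Ioo (by norm_num)]

end Pool.Agent.Results.MP_8cfbc5_co.ThresholdIsOne
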